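import Pool.Agent.Q213.KR16

/-!
# Non-universality of the constant term for real roots of Kac polynomials

For `λ ∈ (0,1)` let `mix λ` be the two-component scale mixture of centred Gaussians with weights
`1 - λ`, `λ`, ratio of standard deviations `e^{-1/λ} : 1`, normalised to variance one.  It is an
admissible law with a smooth positive density and all moments.  We prove that its constant `C_λ`
satisfies `C_λ ≤ kacConst + (2/π) (556 - log (16/λ))`, so `C_λ → -∞` as `λ → 0`.  In particular the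
constant is not universal in the class of admissible laws without atom at `0` (and not bounded below
on that class).
-/

set_option autoImplicit false
open MeasureTheory ProbabilityTheory Filter Topology Set
open scoped ENNReal NNReal

namespace Pool.Agent.Results.MP_a7dd25_pr.NonUniversal

/-- The Kac polynomial `∑_{k ≤ n} ξ_k X^k`. -/
noncomputable def kacPoly (n : ℕ) (ξ : ℕ → ℝ) : Polynomial ℝ :=
  ∑ k ∈ Finset.range (n + 1), Polynomial.C (ξ k) * Polynomial.X ^ k

/-- Number of real roots counted with multiplicity (`0` for the zero polynomial). -/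
noncomputable def numRoots (p : Polynomial ℝ) : ℕ := Multiset.card p.roots

/-- The law of a sequence of independent random variables with common law `μ`. -/
noncomputable def iidLaw (μ : Measure ℝ) : Measure (ℕ → ℝ) := Measure.infinitePi (fun _ : ℕ => μ)

/-- Admissible laws: mean `0`, variance `1` and a finite moment of order `2 + ε` for some `ε > 0`. -/
structure Admissible (μ : Measure ℝ) : Prop where
  prob : IsProbabilityMeasure μ
  mean : ∫ x, x ∂μ = 0
  var : ∫ x, x ^ 2 ∂μ = 1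
  moment : ∃ ε : ℝ, 0 < ε ∧ Integrable (fun x : ℝ => |x| ^ (2 + ε)) μ

/-- `C` is the constant `C_ξ` of the law `μ` of `ξ`: the numbers of real roots are integrable and
`E N_{P_n}(ℝ) - (2/π) log n → C`. -/
structure HasConstant (μ : Measure ℝ) (C : ℝ) : Prop where
  integrable : ∀ n : ℕ, Integrable (fun ξ => (numRoots (kacPoly n ξ) : ℝ)) (iidLaw μ)
  tendsto : Tendsto (fun n : ℕ => ∫ ξ, (numRoots (kacPoly n ξ) : ℝ) ∂(iidLaw μ)
    - (2 / Real.pi) * Real.log n) atTop (𝓝 C)

/-- `(1-λ) N(0, V e^{-2/λ}) + λ N(0, V)` with `V = 1 / ((1-λ) e^{-2/λ} + λ)`. -/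
noncomputable def mix (l : ℝ) : Measure ℝ :=
  ENNReal.ofReal (1 - l) • gaussianReal 0
      (Real.toNNReal (Real.exp (-(2 / l)) / ((1 - l) * Real.exp (-(2 / l)) + l)))
    + ENNReal.ofReal l • gaussianReal 0 (Real.toNNReal (1 / ((1 - l) * Real.exp (-(2 / l)) + l)))

/-- Kac's constant `0.62573...` (the constant of the standard Gaussian law):
`(2/π) log 2 + (4/π) (∫_0^1 g + ∫_1^∞ (g(u) - 1/(2u)) du)`, `g(u) = ½ √(1/u² - 1/sinh² u)`. -/
noncomputable def kacConst : ℝ :=
  (2 / Real.pi) * Real.log 2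
    + (4 / Real.pi) * ((∫ u in Ioc (0 : ℝ) 1, (1 / 2) * Real.sqrt (1 / u ^ 2 - 1 / Real.sinh u ^ 2))
      + ∫ u in Ioi (1 : ℝ), ((1 / 2) * Real.sqrt (1 / u ^ 2 - 1 / Real.sinh u ^ 2) - 1 / (2 * u)))

open Q213.KR in
theorem mix_eq (l : ℝ) (h0 : 0 < l) (h1 : l < 1) :
    muc (1 / Real.sqrt (m1 l (Real.exp (-(1 / l))))) l (Real.exp (-(1 / l))) = mix l := by
  set d : ℝ := Real.exp (-(1 / l)) with hd
  have hd0 : 0 < d := Real.exp_pos _
  have h1l : 0 < 1 - l := by linarith
  have hm : 0 < m1 l d := by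
    unfold m1
    positivity
  have hd2 : d ^ 2 = Real.exp (-(2 / l)) := by
    rw [hd, ← Real.exp_nat_mul]
    congr 1
    push_cast
    ring
  set c : ℝ := 1 / Real.sqrt (m1 l d) with hc
  have hc2 : c ^ 2 = 1 / m1 l d := by
    rw [hc, div_pow, one_pow, Real.sq_sqrt hm.le]
  have key : ∀ y : ℝ, ((Measure.dirac y).prod γ0).map (fun p : ℝ × ℝ => c * (p.1 * p.2))
      = gaussianReal 0 (Real.toNNReal ((c * y) ^ 2)) := by
    intro y
    rw [Measure.dirac_prod, Measure.map_map (muc_meas c) (by fun_prop), ← map_scale]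
    congr 1
    funext z
    simp only [Function.comp_def]
    ring
  unfold muc nu
  have e1 : ((ENNReal.ofReal (1 - l) • Measure.dirac d + ENNReal.ofReal l • Measure.dirac (1 : ℝ)).prod γ0)
      = ENNReal.ofReal (1 - l) • ((Measure.dirac d).prod γ0)
        + ENNReal.ofReal l • ((Measure.dirac (1 : ℝ)).prod γ0) := by
    rw [Measure.add_prod, Measure.prod_smul_left, Measure.prod_smul_left]
  rw [e1, Measure.map_add _ _ (muc_meas c), Measure.map_smul, Measure.map_smul, key, key]
  unfold mix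
  congr 3
  · congr 1
    rw [mul_pow, hc2, hd2]
    unfold m1
    rw [hd2]
    ring
  · congr 1
    rw [mul_one, hc2]
    unfold m1
    rw [hd2]

theorem kacPoly_eq (n : ℕ) (ξ : ℕ → ℝ) : kacPoly n ξ = Kac764.kac n ξ := rfl

open Q213.KR Pool.Agent.Results.MP_5fc11c_pr in
/-- the constant exists for laws without atoms and is `kacConst + L` -/
theorem exists_constant (μ : Measure ℝ) [IsProbabilityMeasure μ]
    (hint : Integrable (fun x : ℝ => x ^ 2) μ) (hmean : ∫ x, x ∂μ = 0) (hvar : ∫ x, x ^ 2 ∂μ = 1)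
    (hna : ∀ x : ℝ, μ {x} = 0) :
    ∃ L : ℝ, Tendsto (fun r : ℝ => 2 * (∫ ξ, (KacConstant.seriesZeros ξ r : ℝ) ∂(KacConstant.iidLaw μ))
          - (2 / Real.pi) * Real.log ((1 + r) / (1 - r))) (𝓝[<] 1) (𝓝 L) ∧
      HasConstant μ (kacConst + L) := by
  obtain ⟨hI, _, _, L, hL, hT⟩ := KacConstant.result μ hint hmean hvar
  have hae : ∀ n : ℕ, (fun ξ => (KacConstant.numRealRoots (KacConstant.kacPoly n ξ) : ℝ))
      =ᵐ[iidLaw μ] fun ξ => (numRoots (kacPoly n ξ) : ℝ) := by
    intro n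
    have h := ae_card μ hna n
    filter_upwards [h] with ξ hξ
    unfold KacConstant.numRealRoots numRoots
    exact hξ.symm
  refine ⟨L, hL, ?_, ?_⟩
  · intro n
    exact (hI n).congr (hae n)
  · have h0 : μ.real {0} = 0 := by
      rw [Measure.real, hna 0, ENNReal.toReal_zero]
    rw [h0, zero_add] at hT
    refine hT.congr fun n => ?_
    unfold KacConstant.expectedRoots
    congr 1
    exact integral_congr_ae (hae n)

theorem mix_ac (l : ℝ) (h0 : 0 < l) (h1 : l < 1) : mix l ≪ volume := by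
  have h1l : 0 < 1 - l := by linarith
  unfold mix
  have hpos : 0 < (1 - l) * Real.exp (-(2 / l)) + l := by positivity
  refine Measure.AbsolutelyContinuous.add_left ?_ ?_
  · refine Measure.AbsolutelyContinuous.smul_left (gaussianReal_absolutelyContinuous _ ?_) _
    rw [ne_eq, Real.toNNReal_eq_zero]
    push Not
    positivity
  · refine Measure.AbsolutelyContinuous.smul_left (gaussianReal_absolutelyContinuous _ ?_) _
    rw [ne_eq, Real.toNNReal_eq_zero]
    push Not
    positivity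

theorem no_atoms_of_ac (μ : Measure ℝ) (h : μ ≪ volume) (x : ℝ) : μ {x} = 0 :=
  h (by simp)

open Q213.KR in
theorem mix_pow_int (l : ℝ) (h0 : 0 < l) (h1 : l < 1) (p : ℕ) :
    Integrable (fun x : ℝ => x ^ p) (mix l) := by
  rw [← mix_eq l h0 h1]
  refine muc_pow_int l _ h0 h1 (Real.exp_pos _) ?_ _ p
  rw [Real.exp_lt_one_iff]
  have : 0 < 1 / l := by positivity
  linarith

theorem abs_pow_int (μ : Measure ℝ) (p : ℕ) (h : Integrable (fun x : ℝ => x ^ p) μ) :
    Integrable (fun x : ℝ => |x| ^ p) μ := by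
  refine h.norm.congr (Eventually.of_forall fun x => ?_)
  simp only [norm_pow, Real.norm_eq_abs]

theorem moment_of_pow (μ : Measure ℝ) (h : Integrable (fun x : ℝ => |x| ^ 3) μ) :
    ∃ ε : ℝ, 0 < ε ∧ Integrable (fun x : ℝ => |x| ^ (2 + ε)) μ := by
  refine ⟨1, one_pos, h.congr (Eventually.of_forall fun x => ?_)⟩
  simp only
  rw [← Real.rpow_natCast]
  norm_num

open Q213.KR in
theorem mix_admissible (l : ℝ) (h0 : 0 < l) (h1 : l < 1) : Admissible (mix l) := by
  have hd1 : Real.exp (-(1 / l)) < 1 := by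
    rw [Real.exp_lt_one_iff]
    have : 0 < 1 / l := by positivity
    linarith
  have hs := muc_std l (Real.exp (-(1 / l))) h0 h1 (Real.exp_pos _) hd1
  rw [mix_eq l h0 h1] at hs
  exact ⟨hs.prob, hs.mean, hs.var, moment_of_pow _ (abs_pow_int _ 3 (mix_pow_int l h0 h1 3))⟩

open Q213.KR in
theorem mix_constant (l : ℝ) (h0 : 0 < l) (h1 : l < 1) :
    ∃ C : ℝ, HasConstant (mix l) C ∧ C ≤ kacConst + (2 / Real.pi) * (556 - Real.log (16 / l)) := by
  have hA := mix_admissible l h0 h1
  have := hA.prob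
  obtain ⟨L, hL, hC⟩ := exists_constant (mix l) (mix_pow_int l h0 h1 2) hA.mean hA.var
    (no_atoms_of_ac _ (mix_ac l h0 h1))
  refine ⟨kacConst + L, hC, ?_⟩
  rw [← mix_eq l h0 h1] at hL
  have hb := L_bound l _ h0 h1 rfl L hL
  linarith

theorem gauss_constant : ∃ C : ℝ, HasConstant (gaussianReal 0 1) C := by
  have hm : ∫ x : ℝ, x ^ 2 ∂(gaussianReal 0 1) = 1 := by
    rw [← Q213.KR.gauss_sq]
    congr 1
    funext x
    ring
  obtain ⟨L, _, hC⟩ := exists_constant (gaussianReal 0 1) (Q213.KR.gauss_pow_int 2)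
    integral_id_gaussianReal hm (no_atoms_of_ac _ (gaussianReal_absolutelyContinuous _ one_ne_zero))
  exact ⟨_, hC⟩

theorem unbounded (M : ℝ) : ∃ l : ℝ, 0 < l ∧ l < 1 ∧
    kacConst + (2 / Real.pi) * (556 - Real.log (16 / l)) ≤ -M := by
  have hpi := Real.pi_pos
  set T : ℝ := |556 + Real.pi / 2 * (M + kacConst)| + 3 with hT
  have hT3 : 3 ≤ T := by
    have := abs_nonneg (556 + Real.pi / 2 * (M + kacConst))
    linarith
  refine ⟨16 * Real.exp (-T), by positivity, ?_, ?_⟩
  · rw [Real.exp_neg, ← div_eq_mul_inv, div_lt_one (Real.exp_pos _)]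
    have h1 : Real.exp 3 ≤ Real.exp T := Real.exp_le_exp.2 hT3
    have h2 : (2.7182818283 : ℝ) < Real.exp 1 := Real.exp_one_gt_d9
    have h3 : Real.exp 3 = Real.exp 1 ^ 3 := by
      rw [← Real.exp_nat_mul]
      norm_num
    have h4 : (2.7182818283 : ℝ) ^ 3 ≤ Real.exp 1 ^ 3 := pow_le_pow_left₀ (by norm_num) h2.le 3
    have h5 : (16 : ℝ) < 2.7182818283 ^ 3 := by norm_num
    linarith
  · have h1 : (16 : ℝ) / (16 * Real.exp (-T)) = Real.exp T := by
      rw [Real.exp_neg]
      field_simp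
    rw [h1, Real.log_exp]
    have h2 : 556 + Real.pi / 2 * (M + kacConst) ≤ T := by
      have := le_abs_self (556 + Real.pi / 2 * (M + kacConst))
      linarith
    have h3 : (2 / Real.pi) * (556 - T) ≤ (2 / Real.pi) * (-(Real.pi / 2 * (M + kacConst))) :=
      mul_le_mul_of_nonneg_left (by linarith) (by positivity)
    have h4 : (2 / Real.pi) * (-(Real.pi / 2 * (M + kacConst))) = -(M + kacConst) := by
      field_simp
    linarith

/-- **Main theorem.** (i) There is an admissible law without atom at `0` whose constant differs from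
the Gaussian one (both constants exist): the constant is not universal.  (ii) For the explicit
Gaussian scale mixtures `mix λ`, `0 < λ < 1` (admissible, absolutely continuous, all moments finite),
`C_λ ≤ kacConst + (2/π) (556 - log (16/λ))`.  (iii) Hence the constant is unbounded below on the
admissible absolutely continuous laws with all moments. -/
theorem result :
    (∃ μ : Measure ℝ, Admissible μ ∧ μ {0} = 0 ∧ ∃ C CG : ℝ, HasConstant μ C ∧
      HasConstant (gaussianReal 0 1) CG ∧ C ≠ CG) ∧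
    (∀ l : ℝ, 0 < l → l < 1 → Admissible (mix l) ∧ mix l ≪ volume ∧
      (∀ p : ℕ, Integrable (fun x : ℝ => |x| ^ p) (mix l)) ∧
      ∃ C : ℝ, HasConstant (mix l) C ∧
        C ≤ kacConst + (2 / Real.pi) * (556 - Real.log (16 / l))) ∧
    (∀ M : ℝ, ∃ μ : Measure ℝ, Admissible μ ∧ μ ≪ volume ∧
      (∀ p : ℕ, Integrable (fun x : ℝ => |x| ^ p) μ) ∧ ∃ C : ℝ, HasConstant μ C ∧ C ≤ -M) := by
  have h2 : ∀ l : ℝ, 0 < l → l < 1 → Admissible (mix l) ∧ mix l ≪ volume ∧
      (∀ p : ℕ, Integrable (fun x : ℝ => |x| ^ p) (mix l)) ∧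
      ∃ C : ℝ, HasConstant (mix l) C ∧
        C ≤ kacConst + (2 / Real.pi) * (556 - Real.log (16 / l)) := by
    intro l h0 h1
    exact ⟨mix_admissible l h0 h1, mix_ac l h0 h1,
      fun p => abs_pow_int _ p (mix_pow_int l h0 h1 p), mix_constant l h0 h1⟩
  have h3 : ∀ M : ℝ, ∃ μ : Measure ℝ, Admissible μ ∧ μ ≪ volume ∧
      (∀ p : ℕ, Integrable (fun x : ℝ => |x| ^ p) μ) ∧ ∃ C : ℝ, HasConstant μ C ∧ C ≤ -M := by
    intro M
    obtain ⟨l, h0, h1, hl⟩ := unbounded M
    obtain ⟨a1, a2, a3, C, a4, a5⟩ := h2 l h0 h1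
    exact ⟨mix l, a1, a2, a3, C, a4, a5.trans hl⟩
  refine ⟨?_, h2, h3⟩
  obtain ⟨CG, hCG⟩ := gauss_constant
  obtain ⟨μ, a1, a2, _, C, a4, a5⟩ := h3 (-CG + 1)
  refine ⟨μ, a1, no_atoms_of_ac μ a2 0, C, CG, a4, hCG, ?_⟩
  intro h
  rw [h] at a5
  linarith

end Pool.Agent.Results.MP_a7dd25_pr.NonUniversal
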